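import Mathlib
import Pool.Agent.W5h63.AX.Main

/-!
# Stability implies Axiom A for diffeomorphisms with homogeneous leaves, all classes `C^r`

`V n = ℝⁿ`, `DiffM n N r = Diff^r(N)`, `strongTop n N r` is its `C^r` topology
(`Pool/Agent/H718R2/G0.lean`); `OmegaStable`, `Omega`, `Per` (`Pool/Agent/TH80/OMS/Defs.lean`,
`SymDefs.lean`): `Ω`-stability, nonwandering set, periodic points. Structurally stable diffeomorphisms
are `Ω`-stable. The other definitions are in `Pool/Agent/W5h63/AX/Defs.lean`:

* `CRec F` is the chain recurrent set;
* `AxiomA n F F'`, where `F'` is the inverse of `F`: the nonwandering set is hyperbolic in the classical
  sense (continuous invariant splitting `Es ⊕ Eu` with exponential estimates) and the periodic points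
  are dense in it;
* `HomHypCR n F`: the chain recurrent set is a finite disjoint union of closed invariant sets, each of
  which is hyperbolic transversally
  - to compact nilmanifolds, the orbits of a simply connected nilpotent Lie group `G` which acts near the
    set, with `F (g y) = φ(g) F(y)` for an arbitrary endomorphism `φ` of `G` (`NilHyp`), or
  - to the orbits of a compact Lie group which acts near the set and commutes there with `F` (`CptHyp`).

  Transversal hyperbolicity (`TrHyp`) is expressed by continuous quadratic forms of any signature which
  do not change along the leaves and increase strictly under `DF` on all other vectors; they exist if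
  there is a continuous invariant splitting `Es ⊕ T(leaf) ⊕ Eu` with exponential contraction on `Es` and
  expansion on `Eu`.

Idea. Near the nilmanifolds in `K` there is a leaf mapped to itself by an iterate; the closing
perturbations inside this leaf and the hyperbolicity of the periodic points of `Ω`-stable maps show that
the differential `A` of `φ` is hyperbolic (`Pool/Agent/W5h63/AP`). The orbits of the compact groups are
finite. So the periodic points are dense in the chain recurrent set. A strict Lyapunov form of `A`,
transported to the leaves, and a large multiple of the transversal form add up to a continuous quadratic
form which increases strictly under `DF` on all nonzero vectors over the chain recurrent set. It gives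
uniform exponential estimates for the vectors which are contracted in the future resp. the past, and a
bound for the angle; these vectors span the tangent spaces at the periodic points, and by compactness at
all points.
-/

set_option autoImplicit false

open scoped Manifold ContDiff Topology

universe u

namespace Pool.Agent.Results.MP_4a0782_an.HomogeneousAxiomA

open Pool.Agent.H718R2.G Pool.Agent.TH80.OMS Pool.Agent.W5h63.AX

/-- Let `N` be a closed manifold, `1 ≤ r ≤ ∞`, and let `F ∈ Diff^r(N)` be `Ω`-stable (for instance
structurally stable). If the chain recurrent set of `F` is the disjoint union of finitely many closed sets
which are hyperbolic transversally to nilmanifolds on which `F` is affine, or to the orbits of compact Lie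
groups which commute with `F`, then `F` satisfies Axiom A, and the nonwandering set is the chain
recurrent set (so that there are no cycles). -/
theorem result {n : ℕ} {N : Type u} [TopologicalSpace N] [T2Space N] [CompactSpace N]
    [ChartedSpace (V n) N] [IsManifold (𝓡 n) ∞ N] (r : ℕ∞) (hr : 1 ≤ r) (F : DiffM n N r)
    (hF : OmegaStable n N r F) (h : HomHypCR n F) : AxiomA n F F.symm ∧ Omega F = CRec F :=
  axiomA hr hF h

end Pool.Agent.Results.MP_4a0782_an.HomogeneousAxiomA
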