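import Mathlib
import Pool.Agent.W5h63.AP.Main

/-!
# Periodic nilmanifolds of `Ω`-stable diffeomorphisms have hyperbolic linear part, all classes `C^r`

`V n = ℝⁿ`, `DiffM n N r = Diff^r(N)`, `strongTop n N r` is its `C^r` topology
(`Pool/Agent/H718R2/G0.lean`); `OmegaStable` (`Pool/Agent/TH80/OMS/Defs.lean`): `Ω`-stability.
Structurally stable diffeomorphisms are `Ω`-stable.

`NilPieces n F` (`Pool/Agent/W5h63/AP/Main.lean`): on all periodic compact nilmanifolds `G / Γ` in `N` on
which the return map of `F` is affine, `g Γ ↦ h φ(g) Γ`, the linear part `L = dφ` is hyperbolic (no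
complex eigenvalue of `L` has modulus one). `IsNilAction`, `IsNilPt` (`Pool/Agent/R189/NC/Defs.lean`):
the simply connected nilpotent group `G` acts smoothly near the nilmanifold; `IsLieAlg`, `IsDiff`
(`Pool/Agent/W5h63/AP/MExp.lean`): Lie algebra of `G` and differential of `φ`. Nothing is required of `F`
away from the nilmanifold and its images; in particular the nilmanifold need not be normally
hyperbolic.

Idea: the closing perturbations along the nilmanifold (`Pool/Agent/R775/HL/Pert.lean`) keep the return
map affine. So near `F` there is a `G` with a periodic point `y` in the piece, and the derivative of the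
return map at `y` is `Ad(w) L^k` on the tangent space of the piece. It has the same eigenvalues as `L^k`
(filtration by iterated commutators), and periodic points of `Ω`-stable diffeomorphisms are hyperbolic.
-/

set_option autoImplicit false

open scoped Manifold ContDiff Topology

universe u

namespace Pool.Agent.Results.MP_4a0782_an.NilmanifoldPieces

open Pool.Agent.H718R2.G Pool.Agent.TH80.OMS Pool.Agent.W5h63.AP

/-- Let `N` be a closed manifold, `1 ≤ r ≤ ∞`, and let `F ∈ Diff^r(N)` be `Ω`-stable (for instance
structurally stable). For all `G` in a neighbourhood of `F` (for instance `G = F`) the linear parts of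
all affine return maps of `G` on periodic nilmanifolds are hyperbolic. -/
theorem result {n : ℕ} {N : Type u} [TopologicalSpace N] [T2Space N] [CompactSpace N]
    [ChartedSpace (V n) N] [IsManifold (𝓡 n) ∞ N] (r : ℕ∞) (hr : 1 ≤ r) (F : DiffM n N r)
    (hF : OmegaStable n N r F) :
    ∃ U : Set (DiffM n N r), IsOpen[strongTop n N r] U ∧ F ∈ U ∧ ∀ G ∈ U, NilPieces n G :=
  nil_pieces hr hF

end Pool.Agent.Results.MP_4a0782_an.NilmanifoldPieces
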