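import Mathlib
import Pool.Agent.W5h63.AP.SL

/-!
# `Ω`-stable diffeomorphisms have no periodic homogeneous submanifolds `SL(d, ℝ) / Γ`

`V n = ℝⁿ`, `DiffM n N r = Diff^r(N)`, `strongTop n N r` is its `C^r` topology
(`Pool/Agent/H718R2/G0.lean`); `OmegaStable` (`Pool/Agent/TH80/OMS/Defs.lean`): `Ω`-stability.
`IsSLdPer d n N F y` (`Pool/Agent/Y368/SLD/Defs.lean`): `y` lies on a periodic homogeneous submanifold
`SL(d, ℝ) / Γ`, `Γ` discrete and cocompact, on which the return map of `F` is a translation, possibly
composed with a map of finite order commuting with `SL(d, ℝ)`. Nothing is required of `F` away from the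
submanifold and its images.

Idea: the closing perturbations along the submanifold (`Pool/Agent/Y368/SLD`) keep the return map a
translation, now by an element `w` a power of which lies in `Γ`. The centraliser of `w` has positive
dimension and moves a periodic point to infinitely many points of the same period; but periodic points of
`Ω`-stable diffeomorphisms are hyperbolic.
-/

set_option autoImplicit false

open scoped Manifold ContDiff Topology

universe u

namespace Pool.Agent.Results.MP_4a0782_an.NoSLdPieces

open Pool.Agent.H718R2.G Pool.Agent.TH80.OMS Pool.Agent.Y368.SLD Pool.Agent.W5h63.AP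

/-- Let `N` be a closed manifold, `1 ≤ r ≤ ∞`, and let `F ∈ Diff^r(N)` be `Ω`-stable (for instance
structurally stable). For all `G` in a neighbourhood of `F` (for instance `G = F`) and all `d ≥ 2` there
are no periodic homogeneous submanifolds `SL(d, ℝ) / Γ` on which the return map of `G` is a translation
(possibly composed with a map of finite order which commutes with `SL(d, ℝ)`). -/
theorem result {n : ℕ} {N : Type u} [TopologicalSpace N] [T2Space N] [CompactSpace N]
    [ChartedSpace (V n) N] [IsManifold (𝓡 n) ∞ N] (r : ℕ∞) (hr : 1 ≤ r) (F : DiffM n N r)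
    (hF : OmegaStable n N r F) :
    ∃ U : Set (DiffM n N r), IsOpen[strongTop n N r] U ∧ F ∈ U ∧ ∀ G ∈ U, ∀ d : ℕ, 2 ≤ d →
      ∀ y : N, ¬ IsSLdPer d n N G y :=
  no_sl hr hF

end Pool.Agent.Results.MP_4a0782_an.NoSLdPieces
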