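import Pool.Agent.W99.PC.Main
import Pool.Agent.W99.PL.Dense

/-!
# `Ω`-stable diffeomorphisms with periodic circles and with one-dimensional leaves, all classes `C^r`

`V n = ℝⁿ`, `DiffM n N r = Diff^r(N)`, `strongTop n N r` is its `C^r` topology
(`Pool/Agent/H718R2/G0.lean`); `OmegaStable`, `Omega` (`Pool/Agent/TH80/OMS/Defs.lean`): `Ω`-stability,
nonwandering set; `Per` (`Pool/Agent/TH80/OMS/SymDefs.lean`): periodic points; `Rec`
(`Pool/Agent/Y504/CO/Stm5.lean`): recurrent points; `IsHyperbolicPer` (`Pool/Agent/Y504/CO/Rob.lean`):
hyperbolic periodic points; `IsAction 1 n N Φ` (`Pool/Agent/R774/ClStmt.lean`): `Φ` is a smooth flow on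
`N`. Structurally stable diffeomorphisms are `Ω`-stable.

* `IsPerCircle`, `MorseSmaleOn`, `RecOnCircles` (`Pool/Agent/W99/PC/Defs.lean`): `C` is a periodic smooth circle of `F`
  (a nonconstant periodic orbit of a smooth flow with `F^m(C) = C`, disjoint from `F^i(C)` for
  `1 ≤ i < m`); no condition on the map `F^m : C → C`, nor on `F` away from the circles.
* `HasLeaves` (`Pool/Agent/W99/PL/Defs.lean`): the chain recurrent set is contained in the disjoint union
  of an open set on which `F` is hyperbolic and of an open set which is a union of one-dimensional
  leaves, mapped to leaves by arbitrary monotone maps, on which `F` is hyperbolic transversally to the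
  leaves. No domination over the leaves is required.

Idea: small translations along the circle, or along the leaves. A periodic pseudo-orbit with jumps
along the leaves becomes an orbit of `Φ_c ∘ F` for some small `c`, by monotonicity. If there are no
periodic points on a circle, then for the first `c` for which a periodic point of a given rotation
number appears, the derivative of the return map at this point is one; but periodic points of
`Ω`-stable diffeomorphisms are hyperbolic. For leaves, a Baire argument in the parameter `c`, using that
periodic points persist, shows that the periodic points of some `Φ_c ∘ F` are dense in its chain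
recurrent set; and `Φ_c ∘ F` is `Ω`-conjugate to `F`.
-/

set_option autoImplicit false

open scoped Manifold ContDiff Topology

universe u

namespace Pool.Agent.Results.MP_4a0782_an.OneDimensionalLeaves

open Pool.Agent.H718R2.G Pool.Agent.TH80.OMS Pool.Agent.W99.PC
open Pool.Agent.W99.PL
open Pool.Agent.Y504.CO (IsHyperbolicPer)

/-- Let `N` be a closed manifold, `1 ≤ r ≤ ∞`, and let `F ∈ Diff^r(N)` be `Ω`-stable (for instance
structurally stable).

1. For all `G` in a neighbourhood of `F` (for instance `G = F`), every periodic smooth circle of `G`
   contains periodic points of `G`, but only finitely many, and all recurrent points on it are periodic.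
2. If all nonperiodic recurrent points of `F`, with the exception of countably many, lie on periodic
   smooth circles, then `F` satisfies Axiom A: `Ω(F)` is finite and consists of hyperbolic periodic
   points.
3. If near its chain recurrent set `F` is hyperbolic or has one-dimensional leaves, mapped by arbitrary
   monotone maps, and is hyperbolic transversally to them, then the periodic points are dense in
   `Ω(F)`. -/
theorem result {n : ℕ} {N : Type u} [TopologicalSpace N] [T2Space N] [CompactSpace N]
    [ChartedSpace (V n) N] [IsManifold (𝓡 n) ∞ N] (r : ℕ∞) (hr : 1 ≤ r) (F : DiffM n N r)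
    (hF : OmegaStable n N r F) :
    (∃ U : Set (DiffM n N r), IsOpen[strongTop n N r] U ∧ F ∈ U ∧ ∀ G ∈ U, ∀ C : Set N,
      IsPerCircle n G C → MorseSmaleOn G C) ∧
    (RecOnCircles n F → (Omega F).Finite ∧ ∀ p ∈ Omega F, IsHyperbolicPer n F p) ∧
    (HasLeaves n F → Omega F = closure (Per F)) :=
  ⟨circles_near hr hF, circles_axiomA hr hF, leaves_dense hr hF⟩

end Pool.Agent.Results.MP_4a0782_an.OneDimensionalLeaves
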